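import Mathlib

/-!
# Weyl sums and arcs

If the Weyl sums of `n` points of the unit circle are small, then every open arc contains about its
share of the points.
-/

set_option autoImplicit false

namespace Pool.Agent.Helper66K9.UC

open Finset

/-- `exp (2 π i x)` -/
noncomputable def e (x : ℝ) : ℂ := Complex.exp (((2 * Real.pi * x : ℝ) : ℂ) * Complex.I)

lemma norm_e (x : ℝ) : ‖e x‖ = 1 := Complex.norm_exp_ofReal_mul_I _

lemma e_ne_zero (x : ℝ) : e x ≠ 0 := Complex.exp_ne_zero _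

lemma e_add (x y : ℝ) : e (x + y) = e x * e y := by
  unfold e
  rw [← Complex.exp_add]
  congr 1
  push_cast
  ring

lemma e_int (n : ℤ) : e n = 1 := by
  unfold e
  rw [Complex.exp_eq_one_iff]
  refine ⟨n, ?_⟩
  push_cast
  ring

lemma e_mul_nat (k : ℕ) (x : ℝ) : e x ^ k = e (k * x) := by
  unfold e
  rw [← Complex.exp_nat_mul]
  congr 1
  push_cast
  ring

lemma e_eq_one {x : ℝ} (h : e x = 1) : ∃ n : ℤ, x = n := by
  unfold e at h
  rw [Complex.exp_eq_one_iff] at h
  obtain ⟨n, hn⟩ := h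
  refine ⟨n, ?_⟩
  have h1 : (((2 * Real.pi * x : ℝ) : ℂ)) = ((2 * Real.pi * n : ℝ) : ℂ) := by
    have h2 : ((2 * Real.pi * x : ℝ) : ℂ) * Complex.I =
        ((2 * Real.pi * n : ℝ) : ℂ) * Complex.I := by
      rw [hn]; push_cast; ring
    exact mul_right_cancel₀ Complex.I_ne_zero h2
  have h3 : 2 * Real.pi * x = 2 * Real.pi * n := by exact_mod_cast h1
  have h4 : (2 * Real.pi) ≠ 0 := by positivity
  exact mul_left_cancel₀ h4 h3

lemma exists_e {u : ℂ} (hu : ‖u‖ = 1) : ∃ θ : ℝ, u = e θ := by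
  obtain ⟨θ, hθ⟩ := (Complex.norm_eq_one_iff u).1 hu
  refine ⟨θ / (2 * Real.pi), ?_⟩
  rw [← hθ]
  unfold e
  congr 2
  have : (2 * Real.pi) ≠ 0 := by positivity
  field_simp

lemma one_sub_e {x : ℝ} (hx : |x| ≤ 1 / 2) : 4 * |x| ≤ ‖e x - 1‖ := by
  have h1 : ‖e x - 1‖ = ‖2 * Real.sin (2 * Real.pi * x / 2)‖ := by
    unfold e
    rw [mul_comm]
    exact Complex.norm_exp_I_mul_ofReal_sub_one _
  have h2 : 2 * Real.pi * x / 2 = Real.pi * x := by ring
  rw [h1, h2, Real.norm_eq_abs, abs_mul, abs_two]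
  have h3 : |Real.sin (Real.pi * x)| = Real.sin (Real.pi * |x|) := by
    rcases le_total 0 x with h | h
    · rw [abs_of_nonneg h, abs_of_nonneg]
      apply Real.sin_nonneg_of_nonneg_of_le_pi (by positivity)
      have : x ≤ 1 := by rw [abs_of_nonneg h] at hx; linarith
      nlinarith [Real.pi_pos]
    · rw [abs_of_nonpos h, mul_neg, Real.sin_neg, abs_of_nonpos]
      rw [← neg_nonneg, ← Real.sin_neg, ← mul_neg]
      apply Real.sin_nonneg_of_nonneg_of_le_pi (mul_nonneg Real.pi_pos.le (by linarith))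
      have : -x ≤ 1 := by rw [abs_of_nonpos h] at hx; linarith
      nlinarith [Real.pi_pos]
  rw [h3]
  have h4 := Real.mul_le_sin (x := Real.pi * |x|) (by positivity) (by nlinarith [Real.pi_pos])
  have h5 : 2 / Real.pi * (Real.pi * |x|) = 2 * |x| := by
    field_simp
  rw [h5] at h4
  linarith

/-- the sum of the Fejér kernels -/
lemma fejer_sum {ι : Type*} (S : Finset ι) (v : ι → ℂ) (hv : ∀ t ∈ S, ‖v t‖ = 1) (m : ℕ) (W : ℝ)
    (hW : 0 ≤ W) (h : ∀ k, 1 ≤ k → k < m → ‖∑ t ∈ S, v t ^ k‖ ≤ W) :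
    |∑ t ∈ S, ‖∑ j ∈ range m, v t ^ j‖ ^ 2 - m * #S| ≤ m ^ 2 * W := by
  have h1 : ((∑ t ∈ S, ‖∑ j ∈ range m, v t ^ j‖ ^ 2 : ℝ) : ℂ) =
      ∑ j ∈ range m, ∑ l ∈ range m, ∑ t ∈ S, v t ^ j * (starRingEnd ℂ) (v t) ^ l := by
    push_cast
    have h2 : ∀ t ∈ S, ((‖∑ j ∈ range m, v t ^ j‖ : ℝ) : ℂ) ^ 2 =
        ∑ j ∈ range m, ∑ l ∈ range m, v t ^ j * (starRingEnd ℂ) (v t) ^ l := by
      intro t _
      rw [← Complex.mul_conj', map_sum, Finset.sum_mul_sum]
      refine Finset.sum_congr rfl fun j _ => Finset.sum_congr rfl fun l _ => ?_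
      rw [map_pow]
    rw [Finset.sum_congr rfl h2, Finset.sum_comm]
    refine Finset.sum_congr rfl fun j _ => ?_
    rw [Finset.sum_comm]
  have h3 : ((m * #S : ℝ) : ℂ) =
      ∑ j ∈ range m, ∑ l ∈ range m, (if j = l then (#S : ℂ) else 0) := by
    have h4 : ∀ j ∈ range m, ∑ l ∈ range m, (if j = l then (#S : ℂ) else 0) = (#S : ℂ) := by
      intro j hj
      rw [Finset.sum_ite_eq, if_pos hj]
    rw [Finset.sum_congr rfl h4]
    simp
  have h5 : ∀ j ∈ range m, ∀ l ∈ range m,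
      ‖∑ t ∈ S, v t ^ j * (starRingEnd ℂ) (v t) ^ l - (if j = l then (#S : ℂ) else 0)‖ ≤ W := by
    intro j hj l hl
    rw [Finset.mem_range] at hj hl
    have hone : ∀ t ∈ S, v t * (starRingEnd ℂ) (v t) = 1 := by
      intro t ht
      rw [Complex.mul_conj', hv t ht]
      simp
    rcases lt_trichotomy j l with hjl | hjl | hjl
    · rw [if_neg hjl.ne, sub_zero]
      have h6 : ∀ t ∈ S, v t ^ j * (starRingEnd ℂ) (v t) ^ l = (starRingEnd ℂ) (v t ^ (l - j)) := by
        intro t ht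
        obtain ⟨i, rfl⟩ := Nat.exists_eq_add_of_le hjl.le
        rw [pow_add, ← mul_assoc, ← mul_pow, hone t ht, one_pow, one_mul, Nat.add_sub_cancel_left,
          map_pow]
      rw [Finset.sum_congr rfl h6, ← map_sum, Complex.norm_conj]
      exact h _ (by omega) (by omega)
    · subst hjl
      have h6 : ∀ t ∈ S, v t ^ j * (starRingEnd ℂ) (v t) ^ j = 1 := by
        intro t ht
        rw [← mul_pow, hone t ht, one_pow]
      rw [Finset.sum_congr rfl h6]
      simpa using hW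
    · rw [if_neg hjl.ne', sub_zero]
      have h6 : ∀ t ∈ S, v t ^ j * (starRingEnd ℂ) (v t) ^ l = v t ^ (j - l) := by
        intro t ht
        obtain ⟨i, rfl⟩ := Nat.exists_eq_add_of_le hjl.le
        rw [pow_add, mul_right_comm, ← mul_pow, hone t ht, one_pow, one_mul,
          Nat.add_sub_cancel_left]
      rw [Finset.sum_congr rfl h6]
      exact h _ (by omega) (by omega)
  have h7 : ‖((∑ t ∈ S, ‖∑ j ∈ range m, v t ^ j‖ ^ 2 - m * #S : ℝ) : ℂ)‖ ≤ m ^ 2 * W := by
    rw [Complex.ofReal_sub, h1, h3, ← Finset.sum_sub_distrib]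
    calc ‖∑ j ∈ range m, (∑ l ∈ range m, ∑ t ∈ S, v t ^ j * (starRingEnd ℂ) (v t) ^ l -
          ∑ l ∈ range m, (if j = l then (#S : ℂ) else 0))‖
        ≤ ∑ j ∈ range m, ∑ l ∈ range m, W := by
          refine (norm_sum_le _ _).trans (Finset.sum_le_sum fun j hj => ?_)
          rw [← Finset.sum_sub_distrib]
          exact (norm_sum_le _ _).trans (Finset.sum_le_sum fun l hl => h5 j hj l hl)
      _ = m ^ 2 * W := by
          simp only [Finset.sum_const, Finset.card_range, nsmul_eq_mul]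
          ring
  rwa [Complex.norm_real, Real.norm_eq_abs] at h7

/-- the open arc of the unit circle of the points `exp (2 π i x)`, `a < x < a + α` -/
def Arc (a α : ℝ) : Set ℂ := {u | ∃ t, 0 < t ∧ t < α ∧ u = e (a + t)}

lemma full_period {u : ℂ} (hu : ‖u‖ = 1) {m : ℕ} (c : ℤ) :
    ∑ i ∈ range m, ‖∑ j ∈ range m, (u * e (-((c + (i : ℕ) : ℝ) / m))) ^ j‖ ^ 2 = m ^ 2 := by
  have h := fejer_sum (range m) (fun i : ℕ => u * e (-((c + (i : ℕ) : ℝ) / m)))
    (fun i _ => by rw [norm_mul, hu, norm_e, one_mul]) m 0 le_rfl ?_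
  · rw [mul_zero, abs_nonpos_iff, sub_eq_zero, Finset.card_range] at h
    rw [h]; ring
  · intro k hk1 hkm
    have hm : (0 : ℝ) < m := by
      have : 0 < m := by omega
      exact_mod_cast this
    have h1 : ∀ i ∈ range m, (u * e (-((c + (i : ℕ) : ℝ) / m))) ^ k =
        (u * e (-(c / m))) ^ k * (e (-(k / m))) ^ i := by
      intro i _
      have h2 : e (-((c + (i : ℕ) : ℝ) / m)) = e (-(c / m)) * e (-((i : ℝ) / m)) := by
        rw [← e_add]
        congr 1
        ring
      rw [h2, ← mul_assoc, mul_pow]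
      congr 1
      rw [e_mul_nat, e_mul_nat]
      congr 1
      ring
    rw [Finset.sum_congr rfl h1, ← Finset.mul_sum]
    have h3 : e (-(k / m : ℝ)) ≠ 1 := by
      intro h4
      obtain ⟨n, hn⟩ := e_eq_one h4
      have h5 : (k : ℝ) = -n * m := by
        have : (k : ℝ) / m = -n := by linarith
        rw [div_eq_iff hm.ne'] at this
        exact this
      have h6 : (k : ℤ) = -n * m := by exact_mod_cast h5
      have h7 : (m : ℤ) ∣ k := ⟨-n, by rw [h6]; ring⟩
      have h8 : m ∣ k := by exact_mod_cast h7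
      exact absurd (Nat.le_of_dvd (by omega) h8) (by omega)
    have h9 : ∑ i ∈ range m, e (-(k / m : ℝ)) ^ i = 0 := by
      have h10 := mul_neg_geom_sum (e (-(k / m : ℝ))) m
      have h11 : e (-(k / m : ℝ)) ^ m = 1 := by
        rw [e_mul_nat]
        have : (m : ℝ) * -(k / m) = ((-k : ℤ) : ℝ) := by
          push_cast
          field_simp
        rw [this, e_int]
      rw [h11, sub_self] at h10
      exact (mul_eq_zero.1 h10).resolve_left (sub_ne_zero.2 h3.symm)
    rw [h9, mul_zero, norm_zero]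

/-- **the number of points in an arc** -/
theorem arc_count {ι : Type*} (s : Finset ι) (u : ι → ℂ) (hu : ∀ t ∈ s, ‖u t‖ = 1) (N : ℕ)
    (hN : 1 ≤ N) (a α : ℝ) (hα : α ≤ 1)
    (h : ∀ k, 1 ≤ k → k < 16 * N ^ 3 → ‖∑ t ∈ s, u t ^ k‖ ≤ #s / (128 * N ^ 4))
    [DecidablePred fun t => u t ∈ Arc a α] :
    α * #s - 15 / 16 * #s / N ≤ #{t ∈ s | u t ∈ Arc a α} := by
  have hN' : (1 : ℝ) ≤ N := by exact_mod_cast hN
  set m : ℕ := 16 * N ^ 3 with hm
  have hmR : (m : ℝ) = 16 * (N : ℝ) ^ 3 := by rw [hm]; push_cast; ring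
  have hm0 : (0 : ℝ) < m := by rw [hmR]; positivity
  set n : ℝ := ((#s : ℕ) : ℝ) with hn
  have hn0 : 0 ≤ n := by rw [hn]; positivity
  set W : ℝ := n / (128 * N ^ 4) with hW
  have hW0 : 0 ≤ W := by rw [hW]; positivity
  set δ : ℝ := 1 / (4 * N) with hδ
  have hδ0 : 0 < δ := by rw [hδ]; positivity
  set c : ℤ := ⌈m * (a + δ)⌉ with hc
  set y : ℝ := m * (α - 2 * δ) with hy
  set q : ℕ := ⌊y⌋₊ with hq
  have hqm : q ≤ m := by
    rw [hq]
    apply Nat.floor_le_of_le
    rw [hy]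
    nlinarith
  have hqy : y - 1 ≤ q := by
    have := Nat.lt_floor_add_one y
    rw [← hq] at this
    linarith
  set ξ : ℕ → ℂ := fun i => e (-((c + (i : ℕ) : ℝ) / m)) with hξ
  set F : ι → ℕ → ℝ := fun t i => ‖∑ j ∈ range m, (u t * ξ i) ^ j‖ ^ 2 with hF
  have hF0 : ∀ t i, 0 ≤ F t i := fun t i => by rw [hF]; positivity
  -- lower bound
  have hlow : ∀ i, m * n - m ^ 2 * W ≤ ∑ t ∈ s, F t i := by
    intro i
    have h1 := fejer_sum s (fun t => u t * ξ i)
      (fun t ht => by rw [norm_mul, hu t ht, hξ]; simp [norm_e]) m W hW0 (by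
        intro k hk1 hkm
        have h2 : ∑ t ∈ s, (u t * ξ i) ^ k = (∑ t ∈ s, u t ^ k) * ξ i ^ k := by
          rw [Finset.sum_mul]
          exact Finset.sum_congr rfl fun t _ => mul_pow _ _ _
        rw [h2, norm_mul, norm_pow]
        have h3 : ‖ξ i‖ = 1 := norm_e _
        rw [h3, one_pow, mul_one]
        exact h k hk1 hkm)
    have h4 := (abs_le.1 h1).1
    linarith
  -- the points of the arc
  have hin : ∀ t ∈ s, ∑ i ∈ range q, F t i ≤ m ^ 2 := by
    intro t ht
    rw [← full_period (hu t ht) c]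
    exact Finset.sum_le_sum_of_subset_of_nonneg (Finset.range_subset_range.2 hqm)
      (fun i _ _ => hF0 t i)
  -- the other points
  have hout : ∀ t ∈ s, u t ∉ Arc a α → ∀ i ∈ range q, F t i ≤ 4 * N ^ 2 := by
    intro t ht hnot i hi
    rw [Finset.mem_range] at hi
    have hy1 : 1 ≤ y := by
      by_contra hcon
      have : q = 0 := Nat.floor_eq_zero.2 (by linarith)
      omega
    have hqy' : (q : ℝ) ≤ y := Nat.floor_le (by linarith)
    have hi' : (i : ℝ) + 1 ≤ q := by exact_mod_cast hi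
    have hc1 : m * (a + δ) ≤ c := Int.le_ceil _
    have hc2 : (c : ℝ) < m * (a + δ) + 1 := Int.ceil_lt_add_one _
    set b : ℝ := (c + (i : ℕ) : ℝ) / m with hb
    have hb1 : a + δ ≤ b := by
      rw [hb, le_div_iff₀ hm0]
      have : (0 : ℝ) ≤ i := by positivity
      nlinarith
    have hb2 : b ≤ a + α - δ := by
      rw [hb, div_le_iff₀ hm0]
      have h5 : (c : ℝ) + i ≤ m * (a + δ) + y := by linarith
      refine h5.trans (le_of_eq ?_)
      rw [hy]; ring
    obtain ⟨θ, hθ⟩ := exists_e (hu t ht)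
    set x : ℝ := θ - b - round (θ - b) with hx
    have hx1 : |x| ≤ 1 / 2 := abs_sub_round _
    have hx2 : u t * ξ i = e x := by
      rw [hθ]
      have h6 : e θ * ξ i = e (θ - b) := by
        rw [hξ]
        simp only
        rw [← e_add]
        congr 1
      rw [h6]
      have h7 : θ - b = x + (round (θ - b) : ℤ) := by rw [hx]; ring
      rw [h7, e_add, e_int, mul_one]
    have hx3 : δ ≤ |x| := by
      by_contra hcon
      push Not at hcon
      apply hnot
      have h8 := abs_lt.1 hcon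
      refine ⟨b + x - a, by linarith, by linarith, ?_⟩
      have h9 : a + (b + x - a) = θ + ((-round (θ - b) : ℤ) : ℝ) := by
        rw [hx]; push_cast; ring
      rw [h9, e_add, e_int, mul_one, hθ]
    have h10 : 1 / N ≤ ‖e x - 1‖ := by
      refine le_trans ?_ (one_sub_e hx1)
      have : 4 * δ = 1 / N := by rw [hδ]; field_simp
      linarith
    have h11 : ‖∑ j ∈ range m, (e x) ^ j‖ * ‖e x - 1‖ ≤ 2 := by
      rw [← norm_mul, geom_sum_mul]
      refine (norm_sub_le _ _).trans ?_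
      rw [norm_pow, norm_e, one_pow, norm_one]
      norm_num
    have h12 : ‖∑ j ∈ range m, (e x) ^ j‖ ≤ 2 * N := by
      have h13 : ‖∑ j ∈ range m, (e x) ^ j‖ * (1 / N) ≤ 2 :=
        (mul_le_mul_of_nonneg_left h10 (norm_nonneg _)).trans h11
      rw [mul_one_div, div_le_iff₀ (by linarith)] at h13
      exact h13
    rw [hF]
    simp only
    rw [hx2]
    calc ‖∑ j ∈ range m, (e x) ^ j‖ ^ 2 ≤ (2 * (N : ℝ)) ^ 2 := by gcongr
      _ = 4 * (N : ℝ) ^ 2 := by ring
  -- conclusion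
  have htot1 : q * (m * n - m ^ 2 * W) ≤ ∑ t ∈ s, ∑ i ∈ range q, F t i := by
    rw [Finset.sum_comm]
    calc q * (m * n - m ^ 2 * W) = ∑ i ∈ range q, (m * n - m ^ 2 * W) := by
          rw [Finset.sum_const, Finset.card_range, nsmul_eq_mul]
      _ ≤ _ := Finset.sum_le_sum fun i _ => hlow i
  have htot2 : ∑ t ∈ s, ∑ i ∈ range q, F t i ≤
      #{t ∈ s | u t ∈ Arc a α} * m ^ 2 + n * (m * (4 * N ^ 2)) := by
    rw [← Finset.sum_filter_add_sum_filter_not s (fun t => u t ∈ Arc a α)]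
    apply add_le_add
    · calc ∑ t ∈ s with u t ∈ Arc a α, ∑ i ∈ range q, F t i
          ≤ ∑ t ∈ s with u t ∈ Arc a α, (m : ℝ) ^ 2 :=
            Finset.sum_le_sum fun t ht => hin t (Finset.mem_filter.1 ht).1
        _ = _ := by rw [Finset.sum_const, nsmul_eq_mul]
    · calc ∑ t ∈ s with u t ∉ Arc a α, ∑ i ∈ range q, F t i
          ≤ ∑ t ∈ s with u t ∉ Arc a α, (m : ℝ) * (4 * N ^ 2) := by
            refine Finset.sum_le_sum fun t ht => ?_
            rw [Finset.mem_filter] at ht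
            calc ∑ i ∈ range q, F t i ≤ ∑ i ∈ range q, (4 * (N : ℝ) ^ 2) :=
                  Finset.sum_le_sum fun i hi => hout t ht.1 ht.2 i hi
              _ = q * (4 * (N : ℝ) ^ 2) := by
                  rw [Finset.sum_const, Finset.card_range, nsmul_eq_mul]
              _ ≤ _ := by
                  have : (q : ℝ) ≤ m := by exact_mod_cast hqm
                  gcongr
        _ = #{t ∈ s | u t ∉ Arc a α} * ((m : ℝ) * (4 * N ^ 2)) := by
            rw [Finset.sum_const, nsmul_eq_mul]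
        _ ≤ _ := by
            have : (#{t ∈ s | u t ∉ Arc a α} : ℝ) ≤ n := by
              rw [hn]; exact_mod_cast Finset.card_filter_le _ _
            gcongr
  set A : ℝ := ((#{t ∈ s | u t ∈ Arc a α} : ℕ) : ℝ) with hA
  have hqm' : (q : ℝ) ≤ m := by exact_mod_cast hqm
  have h14 : q * n / m - m * W ≤ A + 4 * N ^ 2 * n / m := by
    have h15 := htot1.trans htot2
    have h16 : (q * (m * n - m ^ 2 * W)) / m ^ 2 ≤ (A * m ^ 2 + n * (m * (4 * N ^ 2))) / m ^ 2 :=
      div_le_div_of_nonneg_right h15 (by positivity)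
    have h17 : (q * (m * n - m ^ 2 * W)) / m ^ 2 = q * n / m - q * W := by
      field_simp
    have h18 : (A * m ^ 2 + n * (m * (4 * N ^ 2))) / m ^ 2 = A + 4 * N ^ 2 * n / m := by
      field_simp
    rw [h17, h18] at h16
    have h19 : q * W ≤ m * W := by gcongr
    linarith
  have h20 : α * n - n / (2 * N) - n / m ≤ q * n / m := by
    rw [le_div_iff₀ hm0]
    have h21 : (y - 1) * n ≤ q * n := by gcongr
    refine le_trans (le_of_eq ?_) h21
    rw [hy, hδ]
    field_simp
    ring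
  have h22 : m * W = n / (8 * N) := by
    rw [hW, hmR]
    field_simp
    ring
  have h23 : 4 * N ^ 2 * n / m = n / (4 * N) := by
    rw [hmR]
    field_simp
    ring
  have h24 : n / m ≤ n / (16 * N) := by
    apply div_le_div_of_nonneg_left hn0 (by positivity)
    rw [hmR]
    have : (N : ℝ) ≤ N ^ 3 := by
      calc (N : ℝ) = N ^ 1 := by ring
        _ ≤ N ^ 3 := pow_le_pow_right₀ hN' (by norm_num)
    linarith
  rw [h22, h23] at h14
  have h25 : 15 / 16 * n / N = n / (2 * N) + n / (16 * N) + n / (8 * N) + n / (4 * N) := by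
    field_simp
    ring
  rw [h25]
  linarith

end Pool.Agent.Helper66K9.UC
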