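import Mathlib

/-!
# The energy inequality

Let `s` be a set of `n` complex numbers with `∏ |w - a| ≥ 1` (product over the pairs `w ≠ a`), and
`L = ∑ log max (1, |w|)`.  Then the power sums of the numbers `rf w` (equal to `w` or `1 / conj w`,
in the closed unit disc) and the Weyl sums of the numbers `w / |w|` are small.
-/

set_option autoImplicit false

namespace Pool.Agent.Helper66K9.UC

open Finset

/-- reflection to the closed unit disc -/
noncomputable def rf (w : ℂ) : ℂ := if ‖w‖ ≤ 1 then w else ((starRingEnd ℂ) w)⁻¹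

lemma norm_rf_le (w : ℂ) : ‖rf w‖ ≤ 1 := by
  unfold rf
  split_ifs with h
  · exact h
  · push Not at h
    rw [norm_inv, Complex.norm_conj]
    exact inv_le_one_of_one_le₀ h.le

lemma norm_id (w a : ℂ) : ‖1 - w * (starRingEnd ℂ) a‖ ^ 2 =
    ‖w - a‖ ^ 2 + (1 - ‖w‖ ^ 2) * (1 - ‖a‖ ^ 2) := by
  simp only [Complex.sq_norm, Complex.normSq_apply, Complex.sub_re, Complex.sub_im,
    Complex.mul_re, Complex.mul_im, Complex.conj_re, Complex.conj_im, Complex.one_re,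
    Complex.one_im]
  ring

lemma norm_id2 (x : ℂ) (r : ℝ) : ‖1 - r * x‖ ^ 2 =
    r * ‖1 - x‖ ^ 2 + (1 - r) * (1 - r * ‖x‖ ^ 2) := by
  simp only [Complex.sq_norm, Complex.normSq_apply, Complex.sub_re, Complex.sub_im,
    Complex.mul_re, Complex.mul_im, Complex.ofReal_re, Complex.ofReal_im, Complex.one_re,
    Complex.one_im]
  ring

lemma sub_le_of {w a : ℂ} (h : 0 ≤ (1 - ‖w‖ ^ 2) * (1 - ‖a‖ ^ 2)) :
    ‖w - a‖ ≤ ‖1 - w * (starRingEnd ℂ) a‖ := by
  have h1 := norm_id w a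
  have h2 : ‖w - a‖ ^ 2 ≤ ‖1 - w * (starRingEnd ℂ) a‖ ^ 2 := by linarith
  exact (sq_le_sq₀ (norm_nonneg _) (norm_nonneg _)).1 h2

lemma sub_le (w a : ℂ) : ‖w - a‖ ≤
    max 1 ‖w‖ * max 1 ‖a‖ * ‖1 - rf w * (starRingEnd ℂ) (rf a)‖ := by
  by_cases hw : ‖w‖ ≤ 1 <;> by_cases ha : ‖a‖ ≤ 1
  · rw [max_eq_left hw, max_eq_left ha, one_mul, one_mul, rf, rf, if_pos hw, if_pos ha]
    apply sub_le_of
    have := norm_nonneg w
    have := norm_nonneg a
    apply mul_nonneg <;> nlinarith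
  · push Not at ha
    rw [max_eq_left hw, max_eq_right ha.le, one_mul, rf, rf, if_pos hw, if_neg (not_le.2 ha)]
    have ha0 : a ≠ 0 := by
      rintro rfl
      rw [norm_zero] at ha
      linarith
    rw [map_inv₀, Complex.conj_conj, ← norm_mul, mul_sub, mul_one]
    have e1 : a * (w * a⁻¹) = w := by field_simp
    rw [e1, norm_sub_rev]
  · push Not at hw
    rw [max_eq_right hw.le, max_eq_left ha, mul_one, rf, rf, if_neg (not_le.2 hw), if_pos ha]
    have hw0 : (starRingEnd ℂ) w ≠ 0 := by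
      intro h
      rw [map_eq_zero] at h
      rw [h, norm_zero] at hw
      linarith
    rw [← Complex.norm_conj w, ← norm_mul, mul_sub, mul_one]
    have e1 : (starRingEnd ℂ) w * (((starRingEnd ℂ) w)⁻¹ * (starRingEnd ℂ) a) =
        (starRingEnd ℂ) a := by field_simp
    rw [e1, ← map_sub, Complex.norm_conj]
  · push Not at hw ha
    rw [max_eq_right hw.le, max_eq_right ha.le, rf, rf, if_neg (not_le.2 hw), if_neg (not_le.2 ha)]
    have ha0 : a ≠ 0 := by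
      rintro rfl
      rw [norm_zero] at ha
      linarith
    have hw0 : (starRingEnd ℂ) w ≠ 0 := by
      intro h
      rw [map_eq_zero] at h
      rw [h, norm_zero] at hw
      linarith
    rw [map_inv₀, Complex.conj_conj]
    have e1 : ‖w‖ * ‖a‖ * ‖1 - ((starRingEnd ℂ) w)⁻¹ * a⁻¹‖ = ‖1 - w * (starRingEnd ℂ) a‖ := by
      rw [← Complex.norm_conj w, ← norm_mul, ← norm_mul, mul_sub, mul_one]
      have e2 : (starRingEnd ℂ) w * a * (((starRingEnd ℂ) w)⁻¹ * a⁻¹) = 1 := by field_simp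
      rw [e2, norm_sub_rev, ← Complex.norm_conj (1 - w * (starRingEnd ℂ) a)]
      congr 1
      simp
    rw [e1]
    apply sub_le_of
    apply mul_nonneg_of_nonpos_of_nonpos <;> nlinarith

lemma log_one_sub_le {x : ℂ} (hx : ‖x‖ ≤ 1) {r : ℝ} (hr0 : 0 < r) (hr1 : r < 1)
    (h : 0 < ‖1 - x‖) :
    Real.log ‖1 - x‖ ≤ 1 / 2 * Real.log (1 / r) + Real.log ‖1 - r * x‖ := by
  have h1 := norm_id2 x r
  have h2 : ‖x‖ ^ 2 ≤ 1 := pow_le_one₀ (norm_nonneg _) hx
  have h3 : 0 ≤ (1 - r) * (1 - r * ‖x‖ ^ 2) := by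
    apply mul_nonneg (by linarith)
    nlinarith
  have h4 : r * ‖1 - x‖ ^ 2 ≤ ‖1 - r * x‖ ^ 2 := by linarith
  have h5 := Real.log_le_log (by positivity) h4
  rw [Real.log_mul hr0.ne' (by positivity), Real.log_pow, Real.log_pow] at h5
  push_cast at h5
  rw [one_div r, Real.log_inv]
  linarith

/-- the power sums of the reflected numbers -/
noncomputable def P (s : Finset ℂ) (k : ℕ) : ℂ := ∑ w ∈ s, rf w ^ k

lemma hasSum_energy (s : Finset ℂ) {r : ℝ} (hr0 : 0 < r) (hr1 : r < 1) :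
    HasSum (fun m : ℕ => r ^ m / m * ‖P s m‖ ^ 2)
      (-∑ w ∈ s, ∑ a ∈ s, Real.log ‖1 - r * (rf w * (starRingEnd ℂ) (rf a))‖) := by
  have h1 : ∀ w a : ℂ, HasSum (fun m : ℕ => (r * (rf w * (starRingEnd ℂ) (rf a)) : ℂ) ^ m / m)
      (-Complex.log (1 - r * (rf w * (starRingEnd ℂ) (rf a)))) := by
    intro w a
    apply Complex.hasSum_taylorSeries_neg_log
    rw [norm_mul, norm_mul, Complex.norm_conj, Complex.norm_real, Real.norm_of_nonneg hr0.le]
    have h2 : ‖rf w‖ * ‖rf a‖ ≤ 1 := mul_le_one₀ (norm_rf_le w) (norm_nonneg _) (norm_rf_le a)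
    nlinarith
  have h2 := hasSum_sum (s := s) fun w _ => hasSum_sum (s := s) fun a _ => h1 w a
  have h3 := Complex.hasSum_re h2
  convert h3 using 1
  · funext m
    have h4 : ∑ w ∈ s, ∑ a ∈ s, (r * (rf w * (starRingEnd ℂ) (rf a)) : ℂ) ^ m / m =
        ((r ^ m / m * ‖P s m‖ ^ 2 : ℝ) : ℂ) := by
      push_cast
      rw [← Complex.mul_conj', P, map_sum, Finset.sum_mul_sum, Finset.mul_sum]
      refine Finset.sum_congr rfl fun w _ => ?_
      rw [Finset.mul_sum]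
      refine Finset.sum_congr rfl fun a _ => ?_
      rw [map_pow, mul_pow, mul_pow]
      ring
    rw [h4, Complex.ofReal_re]
  · rw [Complex.re_sum, ← Finset.sum_neg_distrib]
    refine Finset.sum_congr rfl fun w _ => ?_
    rw [Complex.re_sum, ← Finset.sum_neg_distrib]
    refine Finset.sum_congr rfl fun a _ => ?_
    rw [Complex.neg_re, Complex.log_re]

/-- **the energy inequality** -/
theorem energy (s : Finset ℂ) (hdisc : 0 ≤ ∑ w ∈ s, ∑ a ∈ s.erase w, Real.log ‖w - a‖)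
    (L : ℝ) (hL : ∑ w ∈ s, Real.log (max 1 ‖w‖) = L) {r : ℝ} (hr0 : 0 < r) (hr1 : r < 1)
    (k : ℕ) :
    r ^ k / k * ‖P s k‖ ^ 2 ≤ 2 * (#s - 1) * L + #s * (#s - 1) / 2 * Real.log (1 / r) +
      #s * Real.log (1 / (1 - r)) := by
  set X : ℂ → ℂ → ℝ := fun w a => Real.log ‖1 - r * (rf w * (starRingEnd ℂ) (rf a))‖ with hX
  have h1 : r ^ k / k * ‖P s k‖ ^ 2 ≤ -∑ w ∈ s, ∑ a ∈ s, X w a :=
    le_hasSum (hasSum_energy s hr0 hr1) k (fun m _ => by positivity)
  have h2 : ∀ w a : ℂ, w ≠ a → Real.log ‖w - a‖ ≤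
      Real.log (max 1 ‖w‖) + Real.log (max 1 ‖a‖) + 1 / 2 * Real.log (1 / r) + X w a := by
    intro w a hwa
    have h3 := sub_le w a
    have h4 : 0 < ‖w - a‖ := norm_pos_iff.2 (sub_ne_zero.2 hwa)
    have hm1 : 0 < max 1 ‖w‖ := lt_of_lt_of_le one_pos (le_max_left _ _)
    have hm2 : 0 < max 1 ‖a‖ := lt_of_lt_of_le one_pos (le_max_left _ _)
    have h5 : 0 < ‖1 - rf w * (starRingEnd ℂ) (rf a)‖ := by
      by_contra hcon
      have h6 : ‖1 - rf w * (starRingEnd ℂ) (rf a)‖ = 0 :=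
        le_antisymm (not_lt.1 hcon) (norm_nonneg _)
      rw [h6, mul_zero] at h3
      linarith
    have h6 := Real.log_le_log h4 h3
    rw [Real.log_mul (by positivity) h5.ne', Real.log_mul hm1.ne' hm2.ne'] at h6
    have h7 : ‖rf w * (starRingEnd ℂ) (rf a)‖ ≤ 1 := by
      rw [norm_mul, Complex.norm_conj]
      exact mul_le_one₀ (norm_rf_le w) (norm_nonneg _) (norm_rf_le a)
    have h8 := log_one_sub_le h7 hr0 hr1 h5
    linarith
  have h3 : ∀ w : ℂ, -Real.log (1 / (1 - r)) ≤ X w w := by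
    intro w
    have h4 : rf w * (starRingEnd ℂ) (rf w) = ((‖rf w‖ ^ 2 : ℝ) : ℂ) := by
      rw [Complex.mul_conj']; push_cast; rfl
    have h5 : ‖rf w‖ ^ 2 ≤ 1 := pow_le_one₀ (norm_nonneg _) (norm_rf_le w)
    have h6 : X w w = Real.log (1 - r * ‖rf w‖ ^ 2) := by
      rw [hX]
      simp only
      rw [h4]
      have h7 : (1 - r * ((‖rf w‖ ^ 2 : ℝ) : ℂ) : ℂ) = ((1 - r * ‖rf w‖ ^ 2 : ℝ) : ℂ) := by
        push_cast; rfl
      rw [h7, Complex.norm_real, Real.norm_of_nonneg]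
      nlinarith
    rw [h6, one_div, Real.log_inv, neg_neg]
    apply Real.log_le_log (by linarith)
    nlinarith
  have h4 : ∑ w ∈ s, ∑ a ∈ s.erase w, Real.log ‖w - a‖ ≤
      ∑ w ∈ s, ∑ a ∈ s.erase w, (Real.log (max 1 ‖w‖) + Real.log (max 1 ‖a‖) +
        1 / 2 * Real.log (1 / r) + X w a) := by
    refine Finset.sum_le_sum fun w _ => Finset.sum_le_sum fun a ha => h2 w a ?_
    exact (Finset.ne_of_mem_erase ha).symm
  have h5 : ∀ w ∈ s, ∑ a ∈ s.erase w, (Real.log (max 1 ‖w‖) + Real.log (max 1 ‖a‖) +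
        1 / 2 * Real.log (1 / r) + X w a) =
      (#s - 1) * Real.log (max 1 ‖w‖) + (L - Real.log (max 1 ‖w‖)) +
        (#s - 1) * (1 / 2 * Real.log (1 / r)) + (∑ a ∈ s, X w a - X w w) := by
    intro w hw
    have hcard : ((#(s.erase w) : ℕ) : ℝ) = #s - 1 := by
      rw [Finset.card_erase_of_mem hw, Nat.cast_sub (Finset.card_pos.2 ⟨w, hw⟩)]
      simp
    rw [Finset.sum_add_distrib, Finset.sum_add_distrib, Finset.sum_add_distrib,
      Finset.sum_const, Finset.sum_const, nsmul_eq_mul, nsmul_eq_mul, hcard,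
      ← Finset.sum_erase_eq_sub hw, ← hL, ← Finset.sum_erase_eq_sub hw]
  rw [Finset.sum_congr rfl h5] at h4
  simp only [Finset.sum_add_distrib, Finset.sum_sub_distrib, ← Finset.mul_sum, hL,
    Finset.sum_const, nsmul_eq_mul] at h4
  have h6 : -(#s * Real.log (1 / (1 - r))) ≤ ∑ w ∈ s, X w w := by
    calc -(#s * Real.log (1 / (1 - r))) = ∑ w ∈ s, -Real.log (1 / (1 - r)) := by
          rw [Finset.sum_const, nsmul_eq_mul]; ring
      _ ≤ _ := Finset.sum_le_sum fun w _ => h3 w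
  nlinarith

lemma P_sq_le (s : Finset ℂ) (hdisc : 0 ≤ ∑ w ∈ s, ∑ a ∈ s.erase w, Real.log ‖w - a‖)
    (L : ℝ) (hL : ∑ w ∈ s, Real.log (max 1 ‖w‖) = L) (hn : 2 ≤ #s) {k : ℕ} (hk : 1 ≤ k)
    (hkn : 2 * k ≤ #s) :
    ‖P s k‖ ^ 2 ≤ 2 * k * #s * (2 * L + 1 / 2 + Real.log #s) := by
  set n : ℝ := ((#s : ℕ) : ℝ) with hn'
  have hn2 : (2 : ℝ) ≤ n := by rw [hn']; exact_mod_cast hn
  have hk1 : (1 : ℝ) ≤ k := by exact_mod_cast hk
  have hkn' : 2 * (k : ℝ) ≤ n := by rw [hn']; exact_mod_cast hkn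
  have hL0 : 0 ≤ L := by
    rw [← hL]
    exact Finset.sum_nonneg fun w _ => Real.log_nonneg (le_max_left _ _)
  have hi : (n : ℝ)⁻¹ ≤ 1 / 2 := by
    rw [inv_le_comm₀ (by linarith) (by norm_num)]
    norm_num
    exact hn2
  have hi0 : 0 < (n : ℝ)⁻¹ := by positivity
  set r : ℝ := 1 - n⁻¹ with hr
  have hr0 : 0 < r := by rw [hr]; linarith
  have hr1 : r < 1 := by rw [hr]; linarith
  have h1 := energy s hdisc L hL hr0 hr1 k
  rw [← hn'] at h1
  have h2 : (1 : ℝ) / 2 ≤ r ^ k := by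
    have h3 := one_add_mul_le_pow (a := -(n⁻¹)) (by linarith) k
    have h4 : (k : ℝ) * n⁻¹ ≤ 1 / 2 := by
      rw [← div_eq_mul_inv, div_le_iff₀ (by linarith)]
      linarith
    have h5 : 1 + -(n⁻¹) = r := by rw [hr]; ring
    rw [h5] at h3
    linarith
  have h3 : Real.log (1 / r) ≤ 1 / (n - 1) := by
    have h4 := Real.one_sub_inv_le_log_of_pos hr0
    rw [one_div, Real.log_inv]
    have h5 : r⁻¹ = n / (n - 1) := by
      rw [hr]
      have : n - 1 ≠ 0 := by linarith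
      have : n ≠ 0 := by linarith
      have h6 : 1 - n⁻¹ = (n - 1) / n := by field_simp
      rw [h6, inv_div]
    rw [h5] at h4
    have h7 : (1 : ℝ) - n / (n - 1) = -(1 / (n - 1)) := by
      have : n - 1 ≠ 0 := by linarith
      field_simp
      ring
    linarith
  have h4 : Real.log (1 / (1 - r)) = Real.log n := by
    rw [hr]
    congr 1
    rw [sub_sub_cancel, one_div, inv_inv]
  rw [h4] at h1
  have h5 : n * (n - 1) / 2 * Real.log (1 / r) ≤ n / 2 := by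
    calc n * (n - 1) / 2 * Real.log (1 / r) ≤ n * (n - 1) / 2 * (1 / (n - 1)) := by
          apply mul_le_mul_of_nonneg_left h3
          have : 0 ≤ n * (n - 1) := by nlinarith
          linarith
      _ = n / 2 := by
          have : n - 1 ≠ 0 := by linarith
          field_simp
  have h6 : 1 / 2 / k * ‖P s k‖ ^ 2 ≤ r ^ k / k * ‖P s k‖ ^ 2 := by gcongr
  have h7 : 1 / 2 / k * ‖P s k‖ ^ 2 ≤ n * (2 * L + 1 / 2 + Real.log n) := by
    nlinarith
  have h8 : 1 / 2 / k * ‖P s k‖ ^ 2 = ‖P s k‖ ^ 2 / (2 * k) := by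
    field_simp
  rw [h8, div_le_iff₀ (by linarith)] at h7
  linarith

/-- the Weyl sums of the arguments -/
noncomputable def W (s : Finset ℂ) (k : ℕ) : ℂ := ∑ w ∈ s, (w / ‖w‖) ^ k

lemma one_sub_pow_le {ρ : ℝ} (hρ : 0 < ρ) (k : ℕ) : 1 - ρ ^ k ≤ k * -Real.log ρ := by
  have h := Real.log_le_sub_one_of_pos (pow_pos hρ k)
  rw [Real.log_pow] at h
  linarith

lemma weyl_sub {w : ℂ} (hw : w ≠ 0) (k : ℕ) :
    ‖(w / ‖w‖) ^ k - rf w ^ k‖ ≤ k * |Real.log ‖w‖| := by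
  have hw0 : 0 < ‖w‖ := norm_pos_iff.2 hw
  have hwC : ((‖w‖ : ℝ) : ℂ) ≠ 0 := by exact_mod_cast hw0.ne'
  have key : ∀ ρ : ℝ, 0 < ρ → ρ ≤ 1 → rf w = ρ * (w / ‖w‖) → -Real.log ρ = |Real.log ‖w‖| →
      ‖(w / ‖w‖) ^ k - rf w ^ k‖ ≤ k * |Real.log ‖w‖| := by
    intro ρ h0 h1 h2 h3
    rw [h2, mul_pow]
    have h4 : (w / ‖w‖) ^ k - (ρ : ℂ) ^ k * (w / ‖w‖) ^ k =
        ((1 - ρ ^ k : ℝ) : ℂ) * (w / ‖w‖) ^ k := by push_cast; ring
    rw [h4, norm_mul, norm_pow, norm_div, Complex.norm_real, Complex.norm_real, norm_norm,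
      div_self hw0.ne', one_pow, mul_one, Real.norm_of_nonneg, ← h3]
    · exact one_sub_pow_le h0 k
    · have := pow_le_one₀ h0.le h1 (n := k)
      linarith
  by_cases h : ‖w‖ ≤ 1
  · apply key ‖w‖ hw0 h
    · rw [rf, if_pos h]
      field_simp
    · rw [abs_of_nonpos (Real.log_nonpos hw0.le h)]
  · push Not at h
    apply key ‖w‖⁻¹ (by positivity) (inv_le_one_of_one_le₀ h.le)
    · rw [rf, if_neg (not_le.2 h)]
      have h5 : w * (starRingEnd ℂ) w = (‖w‖ : ℂ) ^ 2 := Complex.mul_conj' w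
      have h6 : (starRingEnd ℂ) w ≠ 0 := by
        rw [Ne, map_eq_zero]; exact hw
      rw [inv_eq_iff_eq_inv, Complex.ofReal_inv]
      field_simp
      rw [← h5]
      ring
    · rw [Real.log_inv, neg_neg, abs_of_nonneg (Real.log_nonneg h.le)]

lemma abs_log_eq {t : ℝ} (ht : 0 < t) :
    |Real.log t| = 2 * Real.log (max 1 t) - Real.log t := by
  rcases le_total t 1 with h | h
  · rw [max_eq_left h, Real.log_one, abs_of_nonpos (Real.log_nonpos ht.le h)]
    ring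
  · rw [max_eq_right h, abs_of_nonneg (Real.log_nonneg h)]
    ring

lemma W_le (s : Finset ℂ) (h0 : (0 : ℂ) ∉ s) (L : ℝ)
    (hL : ∑ w ∈ s, Real.log (max 1 ‖w‖) = L) (hN : 0 ≤ ∑ w ∈ s, Real.log ‖w‖) (k : ℕ) :
    ‖W s k‖ ≤ ‖P s k‖ + 2 * k * L := by
  have h1 : ‖W s k - P s k‖ ≤ 2 * k * L := by
    rw [W, P, ← Finset.sum_sub_distrib]
    calc ‖∑ w ∈ s, ((w / ‖w‖) ^ k - rf w ^ k)‖ ≤ ∑ w ∈ s, k * |Real.log ‖w‖| := by
          refine (norm_sum_le _ _).trans (Finset.sum_le_sum fun w hw => weyl_sub ?_ k)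
          rintro rfl
          exact h0 hw
      _ = k * (2 * L - ∑ w ∈ s, Real.log ‖w‖) := by
          rw [← Finset.mul_sum, ← hL]
          congr 1
          rw [Finset.mul_sum, ← Finset.sum_sub_distrib]
          refine Finset.sum_congr rfl fun w hw => ?_
          apply abs_log_eq
          rw [norm_pos_iff]
          rintro rfl
          exact h0 hw
      _ ≤ k * (2 * L) := by
          gcongr
          linarith
      _ = 2 * k * L := by ring
  calc ‖W s k‖ = ‖P s k + (W s k - P s k)‖ := by congr 1; ring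
    _ ≤ ‖P s k‖ + ‖W s k - P s k‖ := norm_add_le _ _
    _ ≤ _ := by linarith

end Pool.Agent.Helper66K9.UC
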