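import Mathlib
import Pool.Agent.Helper66K9.UC.Arc
import Pool.Agent.Helper66K9.UC.Energy
import Pool.Agent.H252R3.Leh.Res
import Pool.Agent.W963.GE.Dob

/-!
# The Mahler measure of numbers with unevenly distributed conjugates
-/

set_option autoImplicit false

namespace Pool.Agent.Helper66K9.UC

open Finset Polynomial
open Pool.Agent.W963.GE (MM MM_ge MM_gt roots_nodup mm_dob)
open Pool.Agent.H252R3.Leh (R R_cast cx)

/-- the conjugates of an algebraic integer -/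
noncomputable def cj (x : ℂ) : Finset ℂ := by
  classical
  exact ((minpoly ℤ x).map (Int.castRingHom ℂ)).roots.toFinset

lemma cj_val {x : ℂ} (hx : IsIntegral ℤ x) : (cj x).val = (cx (minpoly ℤ x)).roots := by
  classical
  unfold cj
  rw [Multiset.toFinset_val, Multiset.dedup_eq_self]
  exact roots_nodup x hx

lemma mem_cj {x : ℂ} (hx : IsIntegral ℤ x) (w : ℂ) : w ∈ cj x ↔ aeval w (minpoly ℤ x) = 0 := by
  classical
  unfold cj
  rw [Multiset.mem_toFinset, mem_roots ((minpoly.monic hx).map _).ne_zero, IsRoot.def, eval_map,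
    aeval_def]
  rfl

lemma card_cj {x : ℂ} (hx : IsIntegral ℤ x) : #(cj x) = (minpoly ℤ x).natDegree := by
  have h1 : #(cj x) = Multiset.card (cx (minpoly ℤ x)).roots := by
    rw [← cj_val hx]; rfl
  rw [h1, ← (IsAlgClosed.splits (cx (minpoly ℤ x))).natDegree_eq_card_roots]
  exact (minpoly.monic hx).natDegree_map _

lemma zero_notMem {x : ℂ} (hx : IsIntegral ℤ x) (h0 : x ≠ 0) : (0 : ℂ) ∉ cj x := by
  rw [mem_cj hx, ← coeff_zero_eq_aeval_zero']
  intro h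
  have h1 : (minpoly ℤ x).coeff 0 = 0 := by
    have : ((minpoly ℤ x).coeff 0 : ℂ) = 0 := by simpa using h
    exact_mod_cast this
  have hxQ : IsIntegral ℚ x := hx.tower_top
  apply minpoly.coeff_zero_ne_zero hxQ h0
  rw [minpoly.isIntegrallyClosed_eq_field_fractions' ℚ hx, coeff_map, h1, map_zero]

lemma R_eq_prod {x : ℂ} (hx : IsIntegral ℤ x) (G : ℤ[X]) :
    ((R (minpoly ℤ x) G : ℤ) : ℂ) = ∏ w ∈ cj x, (cx G).eval w := by
  rw [R_cast _ _ (minpoly.monic hx), ← cj_val hx]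
  rfl

lemma log_norm_nonneg {x : ℂ} (hx : IsIntegral ℤ x) (G : ℤ[X])
    (h : ∀ w ∈ cj x, (cx G).eval w ≠ 0) : 0 ≤ ∑ w ∈ cj x, Real.log ‖(cx G).eval w‖ := by
  have h1 := R_eq_prod hx G
  have h2 : ((R (minpoly ℤ x) G : ℤ) : ℂ) ≠ 0 := by
    rw [h1]
    exact Finset.prod_ne_zero_iff.2 h
  have h3 : R (minpoly ℤ x) G ≠ 0 := by exact_mod_cast h2
  have h4 : (1 : ℝ) ≤ |(R (minpoly ℤ x) G : ℝ)| := by
    have := Int.one_le_abs h3
    exact_mod_cast this
  rw [← Real.log_prod (fun w hw => (norm_pos_iff.2 (h w hw)).ne'), ← norm_prod, ← h1,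
    Complex.norm_intCast]
  exact Real.log_nonneg h4

lemma norm_nonneg' {x : ℂ} (hx : IsIntegral ℤ x) (h0 : x ≠ 0) :
    0 ≤ ∑ w ∈ cj x, Real.log ‖w‖ := by
  have h := log_norm_nonneg hx X (by
    intro w hw
    simp only [cx, Polynomial.map_X, eval_X]
    rintro rfl
    exact zero_notMem hx h0 hw)
  simpa [cx] using h

lemma cx_eq_nodal {x : ℂ} (hx : IsIntegral ℤ x) :
    cx (minpoly ℤ x) = Lagrange.nodal (cj x) (id : ℂ → ℂ) := by
  have h := (IsAlgClosed.splits (cx (minpoly ℤ x))).eq_prod_roots_of_monic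
    ((minpoly.monic hx).map _)
  rw [Lagrange.nodal_eq]
  conv_lhs => rw [h, ← cj_val hx]
  rfl

lemma disc_nonneg {x : ℂ} (hx : IsIntegral ℤ x) :
    0 ≤ ∑ w ∈ cj x, ∑ a ∈ (cj x).erase w, Real.log ‖w - a‖ := by
  classical
  have h1 : ∀ w ∈ cj x, (cx (derivative (minpoly ℤ x))).eval w = ∏ a ∈ (cj x).erase w, (w - a) := by
    intro w hw
    have h2 : cx (derivative (minpoly ℤ x)) = derivative (cx (minpoly ℤ x)) :=
      (derivative_map _ _).symm
    rw [h2, cx_eq_nodal hx]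
    have h3 := Lagrange.eval_nodal_derivative_eval_node_eq (v := (id : ℂ → ℂ)) hw
    rw [Lagrange.eval_nodal] at h3
    exact h3
  have h2 := log_norm_nonneg hx (derivative (minpoly ℤ x)) (by
    intro w hw
    rw [h1 w hw, Finset.prod_ne_zero_iff]
    intro a ha
    exact sub_ne_zero.2 (Finset.ne_of_mem_erase ha).symm)
  refine h2.trans (le_of_eq ?_)
  refine Finset.sum_congr rfl fun w hw => ?_
  rw [h1 w hw, norm_prod, Real.log_prod]
  intro a ha
  exact norm_ne_zero_iff.2 (sub_ne_zero.2 (Finset.ne_of_mem_erase ha).symm)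

lemma log_MM_eq {x : ℂ} (hx : IsIntegral ℤ x) :
    ∑ w ∈ cj x, Real.log (max 1 ‖w‖) = Real.log (MM x) := by
  rw [← Real.log_prod]
  · congr 1
    unfold MM
    rw [mahlerMeasure_eq_leadingCoeff_mul_prod_roots, ((minpoly.monic hx).map _).leadingCoeff,
      norm_one, one_mul]
    have h := cj_val hx
    unfold cx at h
    rw [← h]
    rfl
  · intro w _
    have : (1 : ℝ) ≤ max 1 ‖w‖ := le_max_left _ _
    linarith

/-- The Weyl sums are small if the degree is large and the Mahler measure is small. -/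
theorem W_small {x : ℂ} (hx : IsIntegral ℤ x) (h0 : x ≠ 0) (hL : Real.log (MM x) ≤ 1) {N m k : ℕ}
    (hN : 1 ≤ N) (hm : 1 ≤ m) (hmn : m ^ 2 ≤ #(cj x)) (hk : 1 ≤ k) (hkN : k < 16 * N ^ 3)
    (hn : 2 ^ 92 * N ^ 44 ≤ #(cj x)) : ‖W (cj x) (m * k)‖ ≤ #(cj x) / (128 * N ^ 4) := by
  have hN' : (1 : ℝ) ≤ N := by exact_mod_cast hN
  have hL0 : 0 ≤ Real.log (MM x) := Real.log_nonneg (MM_ge x hx)
  set n : ℕ := #(cj x) with hn'
  set s : ℝ := Real.sqrt n with hs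
  have hs0 : 0 ≤ s := Real.sqrt_nonneg _
  have hs2 : s ^ 2 = n := Real.sq_sqrt (by positivity)
  have hms : (m : ℝ) ≤ s := Real.le_sqrt_of_sq_le (by exact_mod_cast hmn)
  have hm1 : (1 : ℝ) ≤ m := by exact_mod_cast hm
  have hs46 : 2 ^ 46 * (N : ℝ) ^ 22 ≤ s := by
    apply Real.le_sqrt_of_sq_le
    have h1 : ((2 : ℝ) ^ 46 * (N : ℝ) ^ 22) ^ 2 = 2 ^ 92 * (N : ℝ) ^ 44 := by ring
    rw [h1]
    exact_mod_cast hn
  set y : ℝ := Real.sqrt s with hy
  have hy0 : 0 ≤ y := Real.sqrt_nonneg _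
  have hy2 : y ^ 2 = s := Real.sq_sqrt hs0
  have hy23 : 2 ^ 23 * (N : ℝ) ^ 11 ≤ y := by
    apply Real.le_sqrt_of_sq_le
    have h1 : ((2 : ℝ) ^ 23 * (N : ℝ) ^ 11) ^ 2 = 2 ^ 46 * (N : ℝ) ^ 22 := by ring
    rw [h1]
    exact hs46
  have hN11 : (1 : ℝ) ≤ (N : ℝ) ^ 11 := one_le_pow₀ hN'
  have hy1 : 1 ≤ y := by nlinarith
  have hs1 : 1 ≤ s := by rw [← hy2]; exact one_le_pow₀ hy1
  have hkR : (k : ℝ) ≤ 16 * N ^ 3 := by exact_mod_cast hkN.le
  have hk1 : (1 : ℝ) ≤ k := by exact_mod_cast hk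
  have hK : (m * k : ℝ) ≤ 16 * N ^ 3 * s := by
    calc (m * k : ℝ) ≤ s * (16 * N ^ 3) := by gcongr
      _ = _ := by ring
  have hpow : ∀ a b : ℕ, a ≤ b → (N : ℝ) ^ a ≤ (N : ℝ) ^ b := fun a b hab =>
    pow_le_pow_right₀ hN' hab
  -- `32 N³ ≤ s` and `8192 N⁷ ≤ s`
  have hs7 : 8192 * (N : ℝ) ^ 7 ≤ s := by
    refine le_trans ?_ hs46
    have := hpow 7 22 (by norm_num)
    have : (0 : ℝ) ≤ (N : ℝ) ^ 22 := by positivity
    nlinarith
  have hs3 : 32 * (N : ℝ) ^ 3 ≤ s := by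
    refine le_trans ?_ hs7
    have := hpow 3 7 (by norm_num)
    have : (0 : ℝ) ≤ (N : ℝ) ^ 7 := by positivity
    nlinarith
  have h2K : 2 * (m * k : ℝ) ≤ n := by
    rw [← hs2]
    nlinarith
  have h2Kn : 2 * (m * k) ≤ n := by exact_mod_cast h2K
  have hn2 : 2 ≤ n := by
    have : 1 ≤ m * k := Nat.one_le_iff_ne_zero.2 (by positivity)
    omega
  have hWle := W_le (cj x) (zero_notMem hx h0) _ (log_MM_eq hx) (norm_nonneg' hx h0) (m * k)
  have hPle := P_sq_le (cj x) (disc_nonneg hx) _ (log_MM_eq hx) hn2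
    (Nat.one_le_iff_ne_zero.2 (by positivity) : 1 ≤ m * k) h2Kn
  rw [← hn'] at hPle
  have hlog : 2 * Real.log (MM x) + 1 / 2 + Real.log n ≤ 4 * y := by
    have h1 : Real.log n = 4 * Real.log y := by
      rw [← hs2, ← hy2, ← pow_mul, Real.log_pow]
      norm_num
    have h2 := Real.log_le_sub_one_of_pos (show 0 < y by linarith)
    linarith
  -- the bound for `P`
  have hN4 : (0 : ℝ) < (N : ℝ) ^ 4 := by positivity
  have hP : ‖P (cj x) (m * k)‖ ≤ s ^ 2 / (256 * N ^ 4) := by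
    apply (sq_le_sq₀ (norm_nonneg _) (by positivity)).1
    refine hPle.trans ?_
    push_cast
    rw [← hs2]
    have h3 : 2 * (m * k : ℝ) * s ^ 2 * (2 * Real.log (MM x) + 1 / 2 + Real.log (s ^ 2)) ≤
        2 * (16 * N ^ 3 * s) * s ^ 2 * (4 * y) := by
      rw [hs2]
      gcongr
    refine h3.trans ?_
    rw [div_pow, le_div_iff₀ (by positivity)]
    have h4 : 2 ^ 23 * (N : ℝ) ^ 11 * y ≤ s := by
      rw [← hy2]
      nlinarith
    have h5 : 2 * (16 * (N : ℝ) ^ 3 * s) * s ^ 2 * (4 * y) * (256 * (N : ℝ) ^ 4) ^ 2 =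
        s ^ 3 * (2 ^ 23 * (N : ℝ) ^ 11 * y) := by ring
    rw [h5]
    calc s ^ 3 * (2 ^ 23 * (N : ℝ) ^ 11 * y) ≤ s ^ 3 * s := by gcongr
      _ = (s ^ 2) ^ 2 := by ring
  have h6 : 2 * ((m * k : ℕ) : ℝ) * Real.log (MM x) ≤ s ^ 2 / (256 * N ^ 4) := by
    push_cast
    calc 2 * (m * k : ℝ) * Real.log (MM x) ≤ 2 * (16 * N ^ 3 * s) * 1 := by gcongr
      _ ≤ _ := by
        rw [le_div_iff₀ (by positivity)]
        calc 2 * (16 * (N : ℝ) ^ 3 * s) * 1 * (256 * N ^ 4) = s * (8192 * (N : ℝ) ^ 7) := by ring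
          _ ≤ s * s := by gcongr
          _ = s ^ 2 := by ring
  calc ‖W (cj x) (m * k)‖ ≤ s ^ 2 / (256 * N ^ 4) + s ^ 2 / (256 * N ^ 4) := by linarith
    _ = n / (128 * N ^ 4) := by
      rw [hs2]
      field_simp
      norm_num

/-- closed sector -/
def Sec (a α : ℝ) : Set ℂ := {w | ∃ t, 0 ≤ t ∧ t ≤ α ∧ w = ‖w‖ * e (a + t)}

lemma arg_pow {w : ℂ} (hw : w ≠ 0) (m : ℕ) : w ^ m = ‖w ^ m‖ * (w / ‖w‖) ^ m := by
  have h1 : ((‖w‖ : ℝ) : ℂ) ≠ 0 := by
    exact_mod_cast norm_ne_zero_iff.2 hw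
  rw [norm_pow, div_pow]
  push_cast
  field_simp

/-- **even distribution** -/
theorem even_of {x : ℂ} (hx : IsIntegral ℤ x) (h0 : x ≠ 0) (hL : Real.log (MM x) ≤ 1) {N m : ℕ}
    (hN : 1 ≤ N) (hm : 1 ≤ m) (hmn : m ^ 2 ≤ #(cj x)) (hn : 2 ^ 92 * N ^ 44 ≤ #(cj x))
    (a α : ℝ) (hα0 : 0 ≤ α) (hα1 : α ≤ 1) [DecidablePred fun w : ℂ => w ^ m ∈ Sec a α] :
    |((#{w ∈ cj x | w ^ m ∈ Sec a α} : ℕ) : ℝ) - α * #(cj x)| < #(cj x) / N := by
  classical
  have hN' : (1 : ℝ) ≤ N := by exact_mod_cast hN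
  set n : ℕ := #(cj x) with hn'
  have hn0 : (0 : ℝ) < n := by
    have h1 : 1 ≤ n := by
      have : 1 ≤ m ^ 2 := Nat.one_le_iff_ne_zero.2 (by positivity)
      omega
    exact_mod_cast h1
  have hne : ∀ w ∈ cj x, w ≠ 0 := by
    rintro w hw rfl
    exact zero_notMem hx h0 hw
  have hu : ∀ w ∈ cj x, ‖(w / ‖w‖) ^ m‖ = 1 := by
    intro w hw
    have h1 : ‖w‖ ≠ 0 := norm_ne_zero_iff.2 (hne w hw)
    rw [norm_pow, norm_div, Complex.norm_real, norm_norm, div_self h1, one_pow]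
  have hW : ∀ k, 1 ≤ k → k < 16 * N ^ 3 → ‖∑ w ∈ cj x, ((w / ‖w‖) ^ m) ^ k‖ ≤
      n / (128 * N ^ 4) := by
    intro k hk1 hk2
    have h1 := W_small hx h0 hL hN hm hmn hk1 hk2 hn
    have h2 : ∑ w ∈ cj x, ((w / ‖w‖) ^ m) ^ k = W (cj x) (m * k) := by
      unfold W
      exact Finset.sum_congr rfl fun w _ => (pow_mul _ _ _).symm
    rw [h2]
    exact h1
  have key : ∀ b β : ℝ, β ≤ 1 → β * n - 15 / 16 * n / N ≤
      ((#{w ∈ cj x | (w / (‖w‖ : ℂ)) ^ m ∈ Arc b β} : ℕ) : ℝ) := fun b β hβ =>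
    arc_count (cj x) (fun w => (w / ‖w‖) ^ m) hu N hN b β hβ hW
  have hlt : 15 / 16 * (n : ℝ) / N < n / N := by
    apply div_lt_div_of_pos_right _ (by linarith)
    linarith
  rw [abs_lt]
  constructor
  · have h1 := key a α hα1
    have h2 : #{w ∈ cj x | (w / (‖w‖ : ℂ)) ^ m ∈ Arc a α} ≤ #{w ∈ cj x | w ^ m ∈ Sec a α} := by
      apply Finset.card_le_card
      intro w hw
      rw [Finset.mem_filter] at hw ⊢
      refine ⟨hw.1, ?_⟩
      obtain ⟨t, ht0, ht1, ht⟩ := hw.2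
      refine ⟨t, ht0.le, ht1.le, ?_⟩
      rw [← ht]
      exact arg_pow (hne w hw.1) m
    have h3 : ((#{w ∈ cj x | (w / (‖w‖ : ℂ)) ^ m ∈ Arc a α} : ℕ) : ℝ) ≤
      (#{w ∈ cj x | w ^ m ∈ Sec a α} : ℕ) := by exact_mod_cast h2
    linarith
  · have h1 := key (a + α) (1 - α) (by linarith)
    have h2 : #{w ∈ cj x | w ^ m ∈ Sec a α} +
        #{w ∈ cj x | (w / (‖w‖ : ℂ)) ^ m ∈ Arc (a + α) (1 - α)} ≤ n := by
      rw [← Finset.card_union_of_disjoint]
      · apply Finset.card_le_card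
        intro w hw
        rw [Finset.mem_union, Finset.mem_filter, Finset.mem_filter] at hw
        rcases hw with hw | hw
        · exact hw.1
        · exact hw.1
      · rw [Finset.disjoint_left]
        intro w hw1 hw2
        rw [Finset.mem_filter] at hw1 hw2
        obtain ⟨t, ht0, ht1, ht⟩ := hw1.2
        obtain ⟨t', ht0', ht1', ht'⟩ := hw2.2
        have hwm : ((‖w ^ m‖ : ℝ) : ℂ) ≠ 0 := by
          exact_mod_cast norm_ne_zero_iff.2 (pow_ne_zero m (hne w hw1.1))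
        have h3 : (‖w ^ m‖ : ℂ) * e (a + t) = ‖w ^ m‖ * e (a + α + t') := by
          rw [← ht, ← ht']
          exact arg_pow (hne w hw1.1) m
        have h4 := mul_left_cancel₀ hwm h3
        have h5 : e (α + t' - t) = 1 := by
          have h6 : a + α + t' = (a + t) + (α + t' - t) := by ring
          rw [h6, e_add (a + t) (α + t' - t)] at h4
          have h7 := e_ne_zero (a + t)
          have h8 : e (a + t) * 1 = e (a + t) * e (α + t' - t) := by rw [mul_one]; exact h4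
          exact (mul_left_cancel₀ h7 h8).symm
        obtain ⟨z, hz⟩ := e_eq_one h5
        have h6 : (0 : ℝ) < z := by rw [← hz]; linarith
        have h7 : (z : ℝ) < 1 := by rw [← hz]; linarith
        have h8 : 0 < z := by exact_mod_cast h6
        have h9 : z < 1 := by exact_mod_cast h7
        omega
    have h3 : ((#{w ∈ cj x | w ^ m ∈ Sec a α} : ℕ) : ℝ) +
        (#{w ∈ cj x | (w / (‖w‖ : ℂ)) ^ m ∈ Arc (a + α) (1 - α)} : ℕ) ≤ n := by exact_mod_cast h2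
    linarith

/-- some sector has too many or too few conjugates -/
def UnevenU (N : ℕ) (x : ℂ) : Prop :=
  ∃ (m : ℕ) (a α : ℝ), 1 ≤ m ∧ m ^ 2 ≤ (minpoly ℤ x).natDegree ∧ 0 ≤ α ∧ α ≤ 1 ∧
    ((minpoly ℤ x).natDegree : ℝ) / N ≤
      |(Nat.card {w : ℂ // aeval w (minpoly ℤ x) = 0 ∧ w ^ m ∈ Sec a α} : ℝ) -
        α * (minpoly ℤ x).natDegree|

lemma natCard_eq {x : ℂ} (hx : IsIntegral ℤ x) (m : ℕ) (a α : ℝ)
    [DecidablePred fun w : ℂ => w ^ m ∈ Sec a α] :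
    Nat.card {w : ℂ // aeval w (minpoly ℤ x) = 0 ∧ w ^ m ∈ Sec a α} =
      #{w ∈ cj x | w ^ m ∈ Sec a α} := by
  apply Nat.subtype_card
  intro w
  rw [Finset.mem_filter, mem_cj hx]

/-- **Lehmer's problem for numbers with unevenly distributed conjugates** -/
theorem log_MM_uneven : ∃ c : ℝ, 0 < c ∧ ∀ x : ℂ, IsIntegral ℤ x → x ≠ 0 →
    (∀ m > 0, x ^ m ≠ 1) → ∀ N : ℕ, 1 ≤ N → UnevenU N x →
      c / Real.log (2 * N) ^ 3 ≤ Real.log (MM x) := by
  classical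
  obtain ⟨c0, hc0, hdob⟩ := mm_dob
  have hl2 : 0 < Real.log 2 := Real.log_pos (by norm_num)
  refine ⟨min (c0 / 93 ^ 3) (Real.log 2 ^ 3), by positivity, ?_⟩
  intro x hx h0 hroot N hN hun
  have hN' : (1 : ℝ) ≤ N := by exact_mod_cast hN
  have hlN : Real.log 2 ≤ Real.log (2 * N) := Real.log_le_log (by norm_num) (by linarith)
  have hlN0 : 0 < Real.log (2 * N) := hl2.trans_le hlN
  by_cases hL : Real.log (MM x) ≤ 1
  swap
  · push Not at hL
    refine le_trans ?_ hL.le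
    rw [div_le_one (by positivity)]
    exact (min_le_right _ _).trans (pow_le_pow_left₀ hl2.le hlN 3)
  · have hlt : #(cj x) < 2 ^ 92 * N ^ 44 := by
      by_contra hcon
      push Not at hcon
      obtain ⟨m, a, α, hm, hmn, hα0, hα1, h⟩ := hun
      rw [natCard_eq hx] at h
      rw [← card_cj hx] at h hmn
      exact absurd h (not_le.2 (even_of hx h0 hL hN hm hmn hcon a α hα0 hα1))
    rw [card_cj hx] at hlt
    refine le_trans ?_ (hdob x hx h0 hroot)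
    have hd1 : 1 ≤ (minpoly ℤ x).natDegree := minpoly.natDegree_pos hx
    set d : ℕ := (minpoly ℤ x).natDegree with hd
    have hd1' : (1 : ℝ) ≤ d := by exact_mod_cast hd1
    have h3 : 2 * d ≤ (2 * N) ^ 93 := by
      have h4 : N ^ 44 ≤ N ^ 93 := Nat.pow_le_pow_right hN (by norm_num)
      have h5 : (2 * N) ^ 93 = 2 * (2 ^ 92 * N ^ 93) := by rw [mul_pow]; ring
      rw [h5]
      have h6 : 2 ^ 92 * N ^ 44 ≤ 2 ^ 92 * N ^ 93 := Nat.mul_le_mul_left _ h4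
      omega
    have h4 : Real.log (2 * d) ≤ 93 * Real.log (2 * N) := by
      have h5 : (2 * d : ℝ) ≤ (2 * N) ^ 93 := by exact_mod_cast h3
      have h6 := Real.log_le_log (by linarith) h5
      rw [Real.log_pow] at h6
      exact_mod_cast h6
    have h5 : 0 < Real.log (2 * d) := Real.log_pos (by linarith)
    calc min (c0 / 93 ^ 3) (Real.log 2 ^ 3) / Real.log (2 * N) ^ 3
        ≤ (c0 / 93 ^ 3) / Real.log (2 * N) ^ 3 := by
          gcongr
          exact min_le_left _ _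
      _ = c0 / (93 * Real.log (2 * N)) ^ 3 := by
          rw [div_div, mul_pow]
      _ ≤ c0 / Real.log (2 * d) ^ 3 := by gcongr

end Pool.Agent.Helper66K9.UC
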