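import Mathlib
import Pool.Agent.Helper34K9.UG.Mix
import Pool.Agent.Helper66K9.UC.Bound

/-!
# The growth gap for unevenly distributed conjugates
-/

set_option autoImplicit false

namespace Pool.Agent.Helper66K9.UC

open Filter Topology Polynomial
open scoped Pointwise commutatorElement TensorProduct ComplexConjugate

open Pool.Agent Pool.Agent.TH53.UG Pool.Agent.W963.GE Pool.Agent.R976.UG Pool.Agent.R701.UG

universe u

/-- **the gap** -/
theorem gap_uneven : ∃ c : ℝ, 0 < c ∧
    ∀ (k d N : ℕ), 1 ≤ k → 1 ≤ N → ∀ (G : Type u) [Group G]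
    (S : Set G), S.Finite → Subgroup.closure S = ⊤ → ∀ (H : Subgroup G), H.index ≠ 0 →
    H.index ≤ d →
    (Group.IsNilpotent (gam H k) ∨ ¬ Group.IsVirtuallyNilpotent (H ⧸ ⁅gam H k, gam H k⁆)) →
    Group.IsVirtuallyNilpotent G ∨
      c / (2 ^ k * d * Real.log (2 * N) ^ 3) ≤ H746UG.rho S ∨
      ∃ (t : H) (x : ℂ), Module.End.HasEigenvalue
        (LinearMap.baseChange ℂ (act (gam H k) t) :
          Module.End ℂ (ℂ ⊗[ℤ] (Additive (Abelianization (gam H k))))) x ∧ UnitNR x ∧
        ¬ UnevenU N x ∧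
        min (1 / 180) (Real.log (MM x)) / (2 ^ (k + 2) * (2 * d - 1)) ≤ H746UG.rho S := by
  obtain ⟨c0, hc0, hlog⟩ := log_MM_uneven
  have hl2 : 0 < Real.log 2 := Real.log_pos (by norm_num)
  refine ⟨min c0 (Real.log 2 ^ 3 / 180) / 8, by positivity, ?_⟩
  intro k d N hk hN G _ S hfin hgen H hH0 hHd hnil
  set c1 := min c0 (Real.log 2 ^ 3 / 180) with hc1
  have hc1p : 0 < c1 := by positivity
  have hN' : (1 : ℝ) ≤ N := by exact_mod_cast hN
  set l := Real.log (2 * N) with hl
  have hl2' : Real.log 2 ≤ l := Real.log_le_log (by norm_num) (by linarith)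
  have hl0 : 0 < l := hl2.trans_le hl2'
  have hl3 : Real.log 2 ^ 3 ≤ l ^ 3 := pow_le_pow_left₀ hl2.le hl2' 3
  have hd : (1 : ℝ) ≤ d := by
    have : 1 ≤ d := by omega
    exact_mod_cast this
  have hd2 : (0 : ℝ) < 2 * d - 1 := by linarith
  have hLpos : (0 : ℝ) < 2 ^ (k + 1) * (2 * d - 1) := by positivity
  -- the final step
  have h180 : c1 / l ^ 3 ≤ 1 / 180 := by
    rw [div_le_iff₀ (by positivity)]
    have := min_le_right c0 (Real.log 2 ^ 3 / 180)
    rw [← hc1] at this
    linarith
  have fin : ∀ δ : ℝ, c1 / l ^ 3 ≤ δ → (δ / 2) / (2 ^ (k + 1) * (2 * d - 1)) ≤ H746UG.rho S →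
      c1 / 8 / (2 ^ k * d * l ^ 3) ≤ H746UG.rho S := by
    intro δ h1 h2
    refine le_trans ?_ h2
    calc c1 / 8 / (2 ^ k * d * l ^ 3) = (c1 / l ^ 3 / 2) / (2 ^ (k + 1) * (2 * d)) := by
          field_simp
          ring
      _ ≤ (c1 / l ^ 3 / 2) / (2 ^ (k + 1) * (2 * d - 1)) := by
          apply div_le_div_of_nonneg_left (by positivity) hLpos
          gcongr
          linarith
      _ ≤ (δ / 2) / (2 ^ (k + 1) * (2 * d - 1)) := by gcongr
  have e : ∀ c : ℝ, c / (2 ^ (k + 2) * (2 * d - 1)) = (c / 2) / (2 ^ (k + 1) * (2 * d - 1)) := by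
    intro c
    rw [div_div]
    congr 1
    ring
  have hl2n := Real.log_two_gt_d9
  rcases Helper34K9.UG.gap_track hk S hfin hgen H hH0 hHd hnil with
    h | h | ⟨t, x, hE, h0, hi, hroot, h⟩
  · exact Or.inl h
  · right; left
    apply fin (2 * Real.log 2) (by linarith)
    rw [mul_div_cancel_left₀ _ (by norm_num)]
    exact h
  · right
    by_cases hu : IsIntegral ℤ x⁻¹
    · by_cases hg : UnevenU N x
      · left
        have h1 := hlog x hi h0 hroot N hN hg
        have h2 : c1 / l ^ 3 ≤ Real.log (MM x) := by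
          refine le_trans ?_ h1
          gcongr
          exact min_le_left _ _
        apply fin (c1 / l ^ 3) le_rfl
        refine le_trans ?_ h
        gcongr
        exact eta_boundC h0 hi hroot (by positivity) h180 h2
      · right
        refine ⟨t, x, hE, ⟨h0, hi, hu, hroot⟩, hg, ?_⟩
        rw [e]
        refine le_trans ?_ h
        gcongr
        have hM := Real.log_pos (MM_gt x hi h0 hroot)
        exact eta_boundC h0 hi hroot (lt_min (by norm_num) hM) (min_le_left _ _) (min_le_right _ _)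
    · left
      apply fin (2 * Real.log 2) (by linarith)
      refine le_trans ?_ h
      gcongr
      rw [H746UG.eta_eq_log_two x h0 (fun h => hu h.2)]
      linarith

end Pool.Agent.Helper66K9.UC
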